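import Pool.Agent.Helper2.LD.St2
import Pool.Agent.Helper2.LD.St2b

/-!
LD project, module TrX: transfer of the local axioms.
-/

set_option autoImplicit false

namespace Pool.Agent.Helper29.LD

open Pool.Agent.Helper2.LD

section Tools

variable {V W : Type} {G : SimpleGraph V} {H : SimpleGraph W}

private theorem back {r : ℕ} {p : List (V × W)} (h : EF G H r p) (hr : 1 ≤ r) (w : W) :
    ∃ v, EF G H (r - 1) ((v, w) :: p) := by
  obtain ⟨s, rfl⟩ : ∃ s, r = s + 1 := ⟨r - 1, by omega⟩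
  exact h.2.2 w

private theorem forth {r : ℕ} {p : List (V × W)} (h : EF G H r p) (hr : 1 ≤ r) (v : V) :
    ∃ w, EF G H (r - 1) ((v, w) :: p) := by
  obtain ⟨s, rfl⟩ : ∃ s, r = s + 1 := ⟨r - 1, by omega⟩
  exact h.2.1 v

private theorem le (B : StEFb) {r r' : ℕ} {p : List (V × W)} (h : EF G H r p) (hr : r' ≤ r) :
    EF G H r' p := by
  induction r with
  | zero =>
    have : r' = 0 := by omega
    subst this
    exact h
  | succ n ih =>
    rcases Nat.lt_or_ge n r' with h1 | h1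
    · have : r' = n + 1 := by omega
      subst this
      exact h
    · exact ih (B.mono G H n p h) h1

end Tools

private theorem okpar {K : Type} (code : K → Finset ℕ) (c : Cl K) (h : c.ok code) :
    c.par.ok code := by
  cases c with
  | m κ i j =>
    obtain ⟨h1, h2, h3⟩ := h
    simp only [Cl.par]
    split_ifs with h4
    · trivial
    · exact ⟨h1, by omega, by omega⟩
  | _ => trivial

/-- a strong root of a gadget has a strong leaf -/
private theorem strongLeaf {K W : Type} {k : ℕ} {code : K → Finset ℕ} {H : SimpleGraph W}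
    (ex : ∀ v, ∃ c : Cl K, c.ok code ∧ Is k code H c v)
    (up : ∀ v (c : Cl K), c.ok code → Is k code H c v → c ≠ Cl.pl →
      ∃! w, H.Adj v w ∧ Is k code H c.par w)
    (nb : ∀ v w (c c' : Cl K), c.ok code → c'.ok code → H.Adj v w → Is k code H c v →
      Is k code H c' w → (c = Cl.pl ∧ c' = Cl.pl) ∨ (c ≠ Cl.pl ∧ c' = c.par) ∨
      (c' ≠ Cl.pl ∧ c = c'.par)) (κ : K) (y : W) (hy : Is k code H (Cl.r κ) y)
    (hd : DegGe H (MM k + 2) y) :
    ∃ z, H.Adj z y ∧ Is k code H (Cl.l κ) z ∧ StrL (MM k) H z := by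
  classical
  obtain ⟨s, hs, hs2⟩ := hd
  obtain ⟨x, ⟨hx1, hx2⟩, hx3⟩ := up y (Cl.r κ) trivial hy (by simp)
  have key : ∀ w ∈ s.erase x, H.Adj y w ∧ Is k code H (Cl.l κ) w := by
    intro w hw
    have hw1 : w ≠ x := (Finset.mem_erase.1 hw).1
    have hw2 : H.Adj y w := hs2 w (Finset.mem_erase.1 hw).2
    refine ⟨hw2, ?_⟩
    obtain ⟨c', hc', hI⟩ := ex w
    rcases nb y w (Cl.r κ) c' trivial hc' hw2 hy hI with ⟨h1, _⟩ | ⟨_, h2⟩ | ⟨_, h2⟩
    · simp at h1
    · exact absurd (hx3 w ⟨hw2, h2 ▸ hI⟩) hw1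
    · cases c' with
      | l κ' =>
        simp only [Cl.par, Cl.r.injEq] at h2
        subst h2
        exact hI
      | m κ' i j =>
        simp only [Cl.par] at h2
        split_ifs at h2
      | pl => simp [Cl.par] at h2
      | a1 _ => simp [Cl.par] at h2
      | a2 _ => simp [Cl.par] at h2
      | r _ => simp [Cl.par] at h2
  have hcard : MM k + 1 ≤ (s.erase x).card := by
    have := Finset.pred_card_le_card_erase (s := s) (a := x)
    omega
  have hne : (s.erase x).Nonempty := by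
    rw [← Finset.card_pos]
    omega
  obtain ⟨z, hz⟩ := hne
  obtain ⟨hz1, hz2⟩ := key z hz
  refine ⟨z, hz1.symm, hz2, ?_⟩
  have hcard2 : MM k ≤ ((s.erase x).erase z).card := by
    rw [Finset.card_erase_of_mem hz]
    omega
  obtain ⟨t, ht1, ht2⟩ := Finset.exists_subset_card_eq hcard2
  refine ⟨t, ht2, fun h => (Finset.mem_erase.1 (ht1 h)).1 rfl, ?_⟩
  have leafAdj : ∀ w, H.Adj y w → Is k code H (Cl.l κ) w → ∀ u, (H.Adj w u ↔ u = y) := by
    intro w hw hI u
    obtain ⟨⟨u0, hu0, hu1⟩, -⟩ := hI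
    have h1 := hu1 y hw.symm
    constructor
    · intro h
      rw [hu1 u h, h1]
    · rintro rfl
      exact hw.symm
  intro w hw u
  obtain ⟨hw1, hw2⟩ := key w (Finset.mem_of_mem_erase (ht1 hw))
  rw [leafAdj z hz1 hz2 u, leafAdj w hw1 hw2 u]

/-- the gadget of a leaf in the full graph -/
private theorem fullChain {K V : Type} [Fintype K] [DecidableEq K] (I : StIs) (FD : StFD)
    {k : ℕ} (hk : 40 ≤ k) (hK : k + 8 ≤ Fintype.card K) (C : KCode k K) (S : SimpleGraph V)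
    (lab : V → Finset K) (κ : K) (v w x y z : FullV k C lab)
    (hv : Is k C.code (full k C S lab) Cl.pl v)
    (hw : Is k C.code (full k C S lab) (Cl.a1 κ) w)
    (hx : Is k C.code (full k C S lab) (Cl.a2 κ) x)
    (hy : Is k C.code (full k C S lab) (Cl.r κ) y)
    (hz : Is k C.code (full k C S lab) (Cl.l κ) z)
    (h1 : (full k C S lab).Adj v w) (h2 : (full k C S lab).Adj w x)
    (h3 : (full k C S lab).Adj x y) (h4 : (full k C S lab).Adj z y)
    (hs : StrL (MM k) (full k C S lab) z) :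
    w.1 = (v.1.1, Fb.a1 κ true) := by
  have ev := (I k hk hK C S lab v Cl.pl trivial).1 hv
  have ew := (I k hk hK C S lab w (Cl.a1 κ) trivial).1 hw
  have ex := (I k hk hK C S lab x (Cl.a2 κ) trivial).1 hx
  have ey := (I k hk hK C S lab y (Cl.r κ) trivial).1 hy
  have ez := (I k hk hK C S lab z (Cl.l κ) trivial).1 hz
  obtain ⟨⟨ov, fv⟩, pv⟩ := v
  obtain ⟨⟨ow, fw⟩, pw⟩ := w
  obtain ⟨⟨ox, fx⟩, px⟩ := x
  obtain ⟨⟨oy, fy⟩, py⟩ := y
  obtain ⟨⟨oz, fz⟩, pz⟩ := z
  simp only [fb] at ev ew ex ey ez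
  cases fv with
  | root =>
    cases fw with
    | a1 κ1 c1 =>
      cases fx with
      | a2 κ2 c2 =>
        cases fy with
        | r κ3 c3 =>
          cases fz with
          | lf κ4 c4 i4 =>
            have hstr := FD.str k hk hK C S lab ⟨(oz, Fb.lf κ4 c4 i4), pz⟩ κ4 c4 i4 rfl
            rw [hstr] at hs
            simp only [clOf, Cl.a1.injEq] at ew
            simp only [clOf, Cl.a2.injEq] at ex
            simp only [clOf, Cl.r.injEq] at ey
            simp only [clOf, Cl.l.injEq] at ez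
            subst ew ex ey ez
            simp only [full, encG, Fb.adj, Fb.par] at h1 h2 h3 h4
            simp at h1 h2 h3 h4
            obtain ⟨hs1, -⟩ := hs
            grind
          | _ => simp [clOf] at ez
        | _ => simp [clOf] at ey
      | _ => simp [clOf] at ex
    | _ => simp [clOf] at ew
  | _ => simp [clOf] at ev

theorem pTrX (B : StEFb) (R : StRank) (RL : StRankL) (I : StIs) (LF : StLocF) (FD : StFD) :
    StTrX := by
  intro K V W _ _ k hk hK C S lab H h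
  have A := LF k hk hK C S lab
  have hrange : ∀ κ, ∀ i ∈ C.code κ, i ≤ SS k := fun κ i hi => (C.rng κ i hi).2
  have cls : ∀ (c : Cl K), c.ok C.code → ∀ (r : ℕ), k - 18 ≤ r →
      ∀ (p : List (FullV k C lab × W)), EF (full k C S lab) H r p → ∀ v w, (v, w) ∈ p →
      (Is k C.code (full k C S lab) c v ↔ Is k C.code H c w) := by
    intro c hc r hr p hp v w hvw
    exact R.cls k hk C.code c hrange hc (full k C S lab) H p v w (le B hp hr) hvw
  have adj : ∀ (r : ℕ) (p : List (FullV k C lab × W)), EF (full k C S lab) H r p →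
      ∀ v w v' w', (v, w) ∈ p → (v', w') ∈ p → ((full k C S lab).Adj v v' ↔ H.Adj w w') := by
    intro r p hp v w v' w' h1 h2
    exact (B.pi _ _ r p hp (v, w) h1 (v', w') h2).2
  have eq : ∀ (r : ℕ) (p : List (FullV k C lab × W)), EF (full k C S lab) H r p →
      ∀ v w v' w', (v, w) ∈ p → (v', w') ∈ p → (v = v' ↔ w = w') := by
    intro r p hp v w v' w' h1 h2
    exact (B.pi _ _ r p hp (v, w) h1 (v', w') h2).1
  have ex : ∀ w, ∃ c : Cl K, c.ok C.code ∧ Is k C.code H c w := by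
    intro w
    obtain ⟨v, hv⟩ := back h (by omega) w
    obtain ⟨c, hc, hI⟩ := A.ex v
    exact ⟨c, hc, (cls c hc _ (by omega) _ hv v w (by simp)).1 hI⟩
  have unex : ∀ (w : W) (c c' : Cl K), c.ok C.code → c'.ok C.code → Is k C.code H c w →
      (∀ v, Is k C.code (full k C S lab) c v →
        ∃! v', (full k C S lab).Adj v v' ∧ Is k C.code (full k C S lab) c' v') →
      ∃! w', H.Adj w w' ∧ Is k C.code H c' w' := by
    intro w c c' hc hc' hI hall
    obtain ⟨v, hv⟩ := back h (by omega) w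
    have hIv := (cls c hc _ (by omega) _ hv v w (by simp)).2 hI
    obtain ⟨v2, ⟨hv2, hv3⟩, hv4⟩ := hall v hIv
    obtain ⟨w2, hw2⟩ := forth hv (by omega) v2
    refine ⟨w2, ⟨(adj _ _ hw2 v w v2 w2 (by simp) (by simp)).1 hv2,
      (cls c' hc' _ (by omega) _ hw2 v2 w2 (by simp)).1 hv3⟩, ?_⟩
    rintro w3 ⟨hw3, hw4⟩
    obtain ⟨v3, hv5⟩ := back hw2 (by omega) w3
    have e := hv4 v3 ⟨(adj _ _ hv5 v w v3 w3 (by simp) (by simp)).2 hw3,
      (cls c' hc' _ (by omega) _ hv5 v3 w3 (by simp)).2 hw4⟩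
    exact (eq _ _ hv5 v3 w3 v2 w2 (by simp) (by simp)).1 e
  have up : ∀ v (c : Cl K), c.ok C.code → Is k C.code H c v → c ≠ Cl.pl →
      ∃! w, H.Adj v w ∧ Is k C.code H c.par w := by
    intro w c hc hI hne
    exact unex w c c.par hc (okpar _ c hc) hI (fun v hv => A.up v c hc hv hne)
  have nb : ∀ v w (c c' : Cl K), c.ok C.code → c'.ok C.code → H.Adj v w → Is k C.code H c v →
      Is k C.code H c' w → (c = Cl.pl ∧ c' = Cl.pl) ∨ (c ≠ Cl.pl ∧ c' = c.par) ∨
      (c' ≠ Cl.pl ∧ c = c'.par) := by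
    intro w1 w2 c c' hc hc' hadj hI1 hI2
    obtain ⟨v1, hv1⟩ := back h (by omega) w1
    obtain ⟨v2, hv2⟩ := back hv1 (by omega) w2
    exact A.nb v1 v2 c c' hc hc' ((adj _ _ hv2 v1 w1 v2 w2 (by simp) (by simp)).2 hadj)
      ((cls c hc _ (by omega) _ hv2 v1 w1 (by simp)).2 hI1)
      ((cls c' hc' _ (by omega) _ hv2 v2 w2 (by simp)).2 hI2)
  refine ⟨ex, ?_, up, ?_, ?_, nb, ?_, ?_⟩
  · intro w c c' hc hc' h1 h2
    obtain ⟨v, hv⟩ := back h (by omega) w
    exact A.un v c c' hc hc' ((cls c hc _ (by omega) _ hv v w (by simp)).2 h1)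
      ((cls c' hc' _ (by omega) _ hv v w (by simp)).2 h2)
  · intro w c c' hc hc' hI h1 h2 h3 h4
    exact unex w c c' hc hc' hI (fun v hv => A.dn v c c' hc hc' hv h1 h2 h3 h4)
  · intro w κ hw
    obtain ⟨v, hv⟩ := back h (by omega) w
    have hpl : Plv (full k C S lab) v :=
      (cls Cl.pl trivial _ (by omega) _ hv v w (by simp)).2 hw
    obtain ⟨v1, v2, hne, ⟨a1, b1⟩, ⟨a2, b2⟩, hall⟩ := A.dn2 v κ hpl
    obtain ⟨w1, hw1⟩ := forth hv (by omega) v1
    obtain ⟨w2, hw2⟩ := forth hw1 (by omega) v2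
    refine ⟨w1, w2, ?_, ⟨?_, ?_⟩, ⟨?_, ?_⟩, ?_⟩
    · intro e
      exact hne ((eq _ _ hw2 v1 w1 v2 w2 (by simp) (by simp)).2 e)
    · exact (adj _ _ hw2 v w v1 w1 (by simp) (by simp)).1 a1
    · exact (cls (Cl.a1 κ) trivial _ (by omega) _ hw2 v1 w1 (by simp)).1 b1
    · exact (adj _ _ hw2 v w v2 w2 (by simp) (by simp)).1 a2
    · exact (cls (Cl.a1 κ) trivial _ (by omega) _ hw2 v2 w2 (by simp)).1 b2
    · intro w3 hw3 hw4
      obtain ⟨v3, hv3⟩ := back hw2 (by omega) w3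
      rcases hall v3 ((adj _ _ hv3 v w v3 w3 (by simp) (by simp)).2 hw3)
        ((cls (Cl.a1 κ) trivial _ (by omega) _ hv3 v3 w3 (by simp)).2 hw4) with e | e
      · exact Or.inl ((eq _ _ hv3 v3 w3 v1 w1 (by simp) (by simp)).1 e)
      · exact Or.inr ((eq _ _ hv3 v3 w3 v2 w2 (by simp) (by simp)).1 e)
  · intro w κ hI
    obtain ⟨v, hv⟩ := back h (by omega) w
    have hIv := (cls (Cl.r κ) trivial _ (by omega) _ hv v w (by simp)).2 hI
    obtain ⟨h1, h2⟩ := A.rdeg v κ hIv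
    have e : ∀ n, n ≤ k - 1 → (DegGe (full k C S lab) n v ↔ DegGe H n w) := by
      intro n hn
      exact R.degge n (full k C S lab) H _ v w (le B hv hn) (by simp)
    refine ⟨(e _ ?_).1 h1, fun h3 => h2 ((e _ ?_).2 h3)⟩
    · simp only [MM]
      omega
    · simp only [MM]
      omega
  · intro v κ w1 w2 x1 x2 y1 y2 hv hw a1 b1 c1 d1 e1 f1 a2 b2 c2 d2 e2 f2 ⟨g1, g2⟩
    obtain ⟨z1, p1, q1, s1⟩ := strongLeaf ex up nb κ y1 f1 g1
    obtain ⟨z2, p2, q2, s2⟩ := strongLeaf ex up nb κ y2 f2 g2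
    obtain ⟨z1', hz1⟩ := back h (by omega) z1
    obtain ⟨z2', hz2⟩ := back hz1 (by omega) z2
    have hst : MM k + 1 ≤ k - 1 - 1 := by
      simp only [MM]
      omega
    have S1 : StrL (MM k) (full k C S lab) z1' :=
      (RL.1 (MM k) (full k C S lab) H _ z1' z1 (le B hz2 hst) (by simp)).2 s1
    have S2 : StrL (MM k) (full k C S lab) z2' :=
      (RL.1 (MM k) (full k C S lab) H _ z2' z2 (le B hz2 hst) (by simp)).2 s2
    obtain ⟨v', h1⟩ := back hz2 (by omega) v
    obtain ⟨w1', h2⟩ := back h1 (by omega) w1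
    obtain ⟨w2', h3⟩ := back h2 (by omega) w2
    obtain ⟨x1', h4⟩ := back h3 (by omega) x1
    obtain ⟨x2', h5⟩ := back h4 (by omega) x2
    obtain ⟨y1', h6⟩ := back h5 (by omega) y1
    obtain ⟨y2', h7⟩ := back h6 (by omega) y2
    have hr : k - 18 ≤ k - 1 - 1 - 1 - 1 - 1 - 1 - 1 - 1 - 1 := by omega
    have r1 := fullChain I FD hk hK C S lab κ v' w1' x1' y1' z1'
      ((cls Cl.pl trivial _ hr _ h7 v' v (by simp)).2 hv)
      ((cls (Cl.a1 κ) trivial _ hr _ h7 w1' w1 (by simp)).2 b1)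
      ((cls (Cl.a2 κ) trivial _ hr _ h7 x1' x1 (by simp)).2 d1)
      ((cls (Cl.r κ) trivial _ hr _ h7 y1' y1 (by simp)).2 f1)
      ((cls (Cl.l κ) trivial _ hr _ h7 z1' z1 (by simp)).2 q1)
      ((adj _ _ h7 v' v w1' w1 (by simp) (by simp)).2 a1)
      ((adj _ _ h7 w1' w1 x1' x1 (by simp) (by simp)).2 c1)
      ((adj _ _ h7 x1' x1 y1' y1 (by simp) (by simp)).2 e1)
      ((adj _ _ h7 z1' z1 y1' y1 (by simp) (by simp)).2 p1) S1
    have r2 := fullChain I FD hk hK C S lab κ v' w2' x2' y2' z2'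
      ((cls Cl.pl trivial _ hr _ h7 v' v (by simp)).2 hv)
      ((cls (Cl.a1 κ) trivial _ hr _ h7 w2' w2 (by simp)).2 b2)
      ((cls (Cl.a2 κ) trivial _ hr _ h7 x2' x2 (by simp)).2 d2)
      ((cls (Cl.r κ) trivial _ hr _ h7 y2' y2 (by simp)).2 f2)
      ((cls (Cl.l κ) trivial _ hr _ h7 z2' z2 (by simp)).2 q2)
      ((adj _ _ h7 v' v w2' w2 (by simp) (by simp)).2 a2)
      ((adj _ _ h7 w2' w2 x2' x2 (by simp) (by simp)).2 c2)
      ((adj _ _ h7 x2' x2 y2' y2 (by simp) (by simp)).2 e2)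
      ((adj _ _ h7 z2' z2 y2' y2 (by simp) (by simp)).2 p2) S2
    have hww : w1' = w2' := Subtype.ext (r1.trans r2.symm)
    exact hw ((eq _ _ h7 w1' w1 w2' w2 (by simp) (by simp)).1 hww)

end Pool.Agent.Helper29.LD
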